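import Pool.Agent.X302.TR.Stm

/-! Part HULL of project TR (helper302). -/

set_option autoImplicit false

namespace Pool.Agent.X148.TRH

open Pool.Agent.X302.TR

/-- `m ↦ dot m v` as an additive map -/
noncomputable def dotHom {n : ℕ} (v : V n) : (Fin n → ℤ) →+ ℝ where
  toFun m := dot m v
  map_zero' := by simp [dot]
  map_add' a b := by simp [dot, add_mul, Finset.sum_add_distrib]

theorem abs_dot_le {n : ℕ} (m : Fin n → ℤ) (v : V n) :
    |dot m v| ≤ (∑ j, |(m j : ℝ)|) * ‖v‖ := by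
  unfold dot
  rw [Finset.sum_mul]
  refine (Finset.abs_sum_le_sum_abs _ _).trans (Finset.sum_le_sum fun j _ => ?_)
  rw [abs_mul]
  refine mul_le_mul_of_nonneg_left ?_ (abs_nonneg _)
  have := norm_le_pi_norm v j
  rwa [Real.norm_eq_abs] at this

theorem t_HULL : Pool.Agent.X302.TR.S_HULL := by
  intro n e
  obtain ⟨S, hS⟩ := IsNoetherian.noetherian (LinearMap.ker (dotHom e).toIntLinearMap)
  have hmem : ∀ m ∈ S, dot m e = 0 := by
    intro m hm
    have : m ∈ LinearMap.ker (dotHom e).toIntLinearMap := hS ▸ Submodule.subset_span hm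
    exact LinearMap.mem_ker.1 this
  set K : ℝ := ∑ m ∈ S, ∑ j, |(m j : ℝ)| with hK
  have hK0 : 0 ≤ K := Finset.sum_nonneg fun m _ => Finset.sum_nonneg fun j _ => abs_nonneg _
  refine ⟨1 / (K + 1), by positivity, fun v hv hlt => ?_⟩
  have h0 : ∀ m ∈ S, dot m v = 0 := by
    intro m hm
    obtain ⟨t, ht⟩ := hv m (hmem m hm)
    have h1 : (∑ j, |(m j : ℝ)|) ≤ K :=
      Finset.single_le_sum (f := fun m : Fin n → ℤ => ∑ j, |(m j : ℝ)|)
        (fun m _ => Finset.sum_nonneg fun j _ => abs_nonneg _) hm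
    have h2 : |dot m v| < 1 := by
      refine (abs_dot_le m v).trans_lt ?_
      calc (∑ j, |(m j : ℝ)|) * ‖v‖ ≤ K * ‖v‖ := mul_le_mul_of_nonneg_right h1 (norm_nonneg _)
        _ ≤ (K + 1) * ‖v‖ := mul_le_mul_of_nonneg_right (by linarith) (norm_nonneg _)
        _ < 1 := by
          rw [lt_div_iff₀ (by positivity)] at hlt
          linarith [mul_comm ‖v‖ (K + 1)]
    rw [ht] at h2
    have h3 : |t| < 1 := by exact_mod_cast h2
    rw [ht, Int.abs_lt_one_iff.1 h3]; simp
  intro m hm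
  have h1 : m ∈ Submodule.span ℤ (S : Set (Fin n → ℤ)) := by
    rw [hS]; exact LinearMap.mem_ker.2 hm
  have h2 : Submodule.span ℤ (S : Set (Fin n → ℤ)) ≤ LinearMap.ker (dotHom v).toIntLinearMap :=
    Submodule.span_le.2 fun m hm => LinearMap.mem_ker.2 (h0 m hm)
  exact LinearMap.mem_ker.1 (h2 h1)

end Pool.Agent.X148.TRH
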